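import Pool.Agent.helper47.TFQ.Spec

/-! # Project tfq, module QCF -/

set_option autoImplicit false

namespace Pool.Agent.TFQ

open Polynomial Pool.Agent.GJ Pool.Agent.TK
open Pool.Agent.FJ (VT Om chiO IsFrobO rf rs)
open Pool.Agent.TD (zK)

noncomputable section

/-- the datum with the single curve `(μ, a)` -/
def QCF_dat (l n : ℕ) [Fact l.Prime] (μ : Fin (n + 1) → ℕ) (a : Fin (n + 1) → Om) [Good Om l μ a] : Dat l where
  k := 1
  n := fun _ => n
  μ := fun _ => μ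
  a := fun _ => a
  good := fun _ => inferInstance
  e := fun _ => 1
  r := 0
  m := fun j => j.elim0
  pos := fun j => j.elim0

theorem QCF_mul (hNB1 : TQ.NB1_stmt) {l n : ℕ} [Fact l.Prime] {μ : Fin (n + 1) → ℕ} {a : Fin (n + 1) → Om}
    [Good Om l μ a] [hd : IsDedekindDomain (CR Om l μ a)] (q : ℕ) [Fact q.Prime] (s t : rootsOfUnity l Om) :
    (zK q (s * t) : Module.End ℚ_[q] (VT q (JC Om l μ a))) = zK q s * zK q t := by
  have : ∀ i, IsDedekindDomain (CR Om l ((QCF_dat l n μ a).μ i) ((QCF_dat l n μ a).a i)) := fun _ => hd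
  exact (hNB1 l q (QCF_dat l n μ a)).2.2.2.1 (⟨0, Nat.one_pos⟩ : Fin 1) s t

theorem QCF_one (hNB1 : TQ.NB1_stmt) {l n : ℕ} [Fact l.Prime] {μ : Fin (n + 1) → ℕ} {a : Fin (n + 1) → Om}
    [Good Om l μ a] [hd : IsDedekindDomain (CR Om l μ a)] (q : ℕ) [Fact q.Prime] :
    (zK q (1 : rootsOfUnity l Om) : Module.End ℚ_[q] (VT q (JC Om l μ a))) = 1 := by
  have : ∀ i, IsDedekindDomain (CR Om l ((QCF_dat l n μ a).μ i) ((QCF_dat l n μ a).a i)) := fun _ => hd
  exact (hNB1 l q (QCF_dat l n μ a)).2.2.2.2.1 (⟨0, Nat.one_pos⟩ : Fin 1)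

theorem QCF_pow (hNB1 : TQ.NB1_stmt) {l n : ℕ} [Fact l.Prime] {μ : Fin (n + 1) → ℕ} {a : Fin (n + 1) → Om}
    [Good Om l μ a] [hd : IsDedekindDomain (CR Om l μ a)] (q : ℕ) [Fact q.Prime] (s : rootsOfUnity l Om) (e : ℕ) :
    (zK q (s ^ e) : Module.End ℚ_[q] (VT q (JC Om l μ a))) =
      (zK q s : Module.End ℚ_[q] (VT q (JC Om l μ a))) ^ e := by
  induction e with
  | zero =>
    rw [pow_zero, pow_zero]
    exact QCF_one hNB1 q
  | succ e ih => rw [pow_succ, pow_succ, ← ih, QCF_mul hNB1]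

theorem QCF_ru {l : ℕ} [Fact l.Prime] (z : Om) (hz : z ^ l = 1) :
    (((ru l z : rootsOfUnity l Om) : Omˣ) : Om) = z := by
  rw [ru, dif_pos hz]
  simp

theorem QCF (hNB1 : TQ.NB1_stmt) : QCF_stmt := by
  classical
  intro l n _ μ F _ _ _ χ A s hs hχ
  have hl : l.Prime := Fact.out
  have : NeZero l := ⟨hl.ne_zero⟩
  set z : Om := ((s : Omˣ) : Om) with hz
  have hzp : IsPrimitiveRoot z l := hs
  have hχl : ∀ a : F, a ≠ 0 → χ a ^ l = 1 := by
    intro a ha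
    have h1 : (χ ^ l) a = 1 := by
      rw [hχ]
      exact MulChar.one_apply (isUnit_iff_ne_zero.2 ha)
    rwa [MulChar.pow_apply' _ hl.ne_zero] at h1
  have hx1 : ∀ (d : ℕ) (c : Fin d → F), (∀ j, (gq c).eval (A j) ≠ 0) →
      (∏ j, χ ((gq c).eval (A j)) ^ μ j) ^ l = 1 := by
    intro d c hc
    rw [← Finset.prod_pow]
    refine Finset.prod_eq_one fun j _ => ?_
    rw [← pow_mul, mul_comm, pow_mul, hχl _ (hc j), one_pow]
  have hex : ∀ (d : ℕ) (c : Fin d → F), ∃ e : ℕ, (∀ j, (gq c).eval (A j) ≠ 0) →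
      e < l ∧ z ^ e = (∏ j, χ ((gq c).eval (A j)) ^ μ j)⁻¹ := by
    intro d c
    by_cases hc : ∀ j, (gq c).eval (A j) ≠ 0
    · have h1 : ((∏ j, χ ((gq c).eval (A j)) ^ μ j)⁻¹) ^ l = 1 := by
        rw [inv_pow, hx1 d c hc, inv_one]
      obtain ⟨e, he1, he2⟩ := hzp.eq_pow_of_pow_eq_one h1
      exact ⟨e, fun _ => ⟨he1, he2⟩⟩
    · exact ⟨0, fun h => absurd h hc⟩
  choose e he using hex
  refine ⟨fun d => ∑ c ∈ Gq A d, X ^ e d c, ?_, ?_, ?_⟩
  · show ∑ c ∈ Gq A 0, (X : ℤ[X]) ^ e 0 c = 1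
    have h1 : Gq A 0 = Finset.univ := by
      rw [Gq, Finset.filter_true_of_mem]
      intro c _ j
      simp [gq]
    rw [h1, Finset.univ_unique, Finset.sum_singleton]
    obtain ⟨h2, h3⟩ := he 0 default (fun j => by simp [gq])
    have h4 : (∏ j, χ ((gq (default : Fin 0 → F)).eval (A j)) ^ μ j) = 1 := by
      refine Finset.prod_eq_one fun j _ => ?_
      simp [gq]
    rw [h4, inv_one] at h3
    have h5 : e 0 default = 0 := by
      have h6 := (hzp.pow_eq_one_iff_dvd _).1 h3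
      exact Nat.eq_zero_of_dvd_of_lt h6 h2
    rw [h5, pow_zero]
  · intro d
    rw [map_sum]
    refine Finset.sum_congr rfl fun c hc => ?_
    rw [Gq, Finset.mem_filter] at hc
    rw [map_pow, aeval_X]
    exact (he d c hc.2).2
  · intro q _ a _ _ d
    rw [cfQ, Polynomial.map_sum, map_sum]
    refine Finset.sum_congr rfl fun c hc => ?_
    rw [Gq, Finset.mem_filter] at hc
    rw [Polynomial.map_pow, map_X, map_pow, aeval_X, ← QCF_pow hNB1]
    refine congrArg (fun t => (zK q t : Module.End ℚ_[q] (VT q (JC Om l μ a)))) ?_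
    apply Subtype.ext
    apply Units.ext
    have h1 : (((ru l (∏ j, χ ((gq c).eval (A j)) ^ μ j) : rootsOfUnity l Om) : Omˣ) : Om) =
        ∏ j, χ ((gq c).eval (A j)) ^ μ j := QCF_ru _ (hx1 d c hc.2)
    have h2 : ((((ru l (∏ j, χ ((gq c).eval (A j)) ^ μ j))⁻¹ : rootsOfUnity l Om) : Omˣ) : Om) =
        (∏ j, χ ((gq c).eval (A j)) ^ μ j)⁻¹ := by
      refine Eq.trans ?_ (congrArg (fun t => t⁻¹) h1)
      simp
    have h3 : (((s ^ e d c : rootsOfUnity l Om) : Omˣ) : Om) = z ^ e d c := by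
      rw [hz]
      simp
    rw [h2, h3, (he d c hc.2).2]

end

end Pool.Agent.TFQ
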